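import Mathlib.Algebra.CharP.Defs
import Mathlib.Algebra.Notation.Lemmas
import Mathlib.Algebra.BigOperators.Field
import Mathlib.Topology.Sheaves.Presheaf
import Mathlib.Tactic.Monotonicity.Lemmas
import Mathlib.Algebra.Order.Ring.Star
import Mathlib.Data.Fin.Parity
import Mathlib.Analysis.Normed.Order.Lattice
import Mathlib.Analysis.SpecificLimits.Basic
import Mathlib.Analysis.Convex.StdSimplex
import Mathlib.Algebra.Order.Star.Real
import Mathlib.Tactic.Algebra.Basic

-- ======== part 0: formerly Pool.Agent.Lib.helper80.Simplex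
section MrgPart0

/-! Standard simplices: faces, degeneracies, skeleta, gluing and retractions. -/

open Set Topology

noncomputable section

namespace Pool.Agent.H80

abbrev Sx (n : ℕ) : Type := stdSimplex ℝ (Fin (n + 1))

def smap {a b : ℕ} (f : Fin (a + 1) → Fin (b + 1)) : C(Sx a, Sx b) :=
  ⟨stdSimplex.map f, stdSimplex.continuous_map f⟩

abbrev vtx {a : ℕ} (i : Fin (a + 1)) : Sx a := stdSimplex.vertex i

lemma smap_apply {a b : ℕ} (f : Fin (a + 1) → Fin (b + 1)) (t : Sx a) (y : Fin (b + 1)) :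
    smap f t y = ∑ x with f x = y, t x := by
  show (stdSimplex.map f t) y = _
  rw [stdSimplex.map_coe, FunOnFinite.linearMap_apply_apply]

lemma smap_smap {a b c : ℕ} (f : Fin (a + 1) → Fin (b + 1)) (g : Fin (b + 1) → Fin (c + 1))
    (t : Sx a) : smap g (smap f t) = smap (g ∘ f) t :=
  stdSimplex.map_comp_apply f g t

lemma smap_comp {a b c : ℕ} (f : Fin (a + 1) → Fin (b + 1)) (g : Fin (b + 1) → Fin (c + 1)) :
    (smap g).comp (smap f) = smap (g ∘ f) := by
  ext1 t; exact smap_smap f g t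

@[simp] lemma smap_id_apply {a : ℕ} (t : Sx a) : smap id t = t := stdSimplex.map_id_apply t

lemma smap_id {a : ℕ} : smap (id : Fin (a + 1) → Fin (a + 1)) = ContinuousMap.id _ := by
  ext1 t; exact smap_id_apply t

@[simp] lemma smap_vtx {a b : ℕ} (f : Fin (a + 1) → Fin (b + 1)) (i : Fin (a + 1)) :
    smap f (vtx i) = vtx (f i) := stdSimplex.map_vertex f i

lemma smap_of_inj {a b : ℕ} {f : Fin (a + 1) → Fin (b + 1)} (hf : Function.Injective f)
    (t : Sx a) (x : Fin (a + 1)) : smap f t (f x) = t x := by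
  rw [smap_apply, Finset.sum_eq_single x]
  · intro y hy hne
    exact absurd (hf (by simpa using hy)) hne
  · simp

lemma smap_eq_zero {a b : ℕ} {f : Fin (a + 1) → Fin (b + 1)} (t : Sx a) {y : Fin (b + 1)}
    (hy : ∀ x, f x = y → t x = 0) : smap f t y = 0 := by
  rw [smap_apply]
  exact Finset.sum_eq_zero fun x hx => hy x (by simpa using hx)

lemma smap_of_not_mem {a b : ℕ} {f : Fin (a + 1) → Fin (b + 1)} (t : Sx a) {y : Fin (b + 1)}
    (hy : y ∉ range f) : smap f t y = 0 :=
  smap_eq_zero t fun x hx => absurd ⟨x, hx⟩ hy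

lemma smap_congr {a b : ℕ} {f g : Fin (a + 1) → Fin (b + 1)} (t : Sx a)
    (h : ∀ x, t x ≠ 0 → f x = g x) : smap f t = smap g t := by
  apply stdSimplex.ext
  funext y
  rw [smap_apply, smap_apply, Finset.sum_filter, Finset.sum_filter]
  refine Finset.sum_congr rfl fun x _ => ?_
  by_cases hx : t x = 0
  · simp [hx]
  · rw [h x hx]

def res {a b : ℕ} (f : Fin (a + 1) → Fin (b + 1)) : C(Sx b, Sx a) := smap (Function.invFun f)

lemma res_smap {a b : ℕ} {f : Fin (a + 1) → Fin (b + 1)} (hf : Function.Injective f)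
    (t : Sx a) : res f (smap f t) = t := by
  rw [res, smap_smap, Function.invFun_comp hf, smap_id_apply]

lemma smap_res {a b : ℕ} {f : Fin (a + 1) → Fin (b + 1)} {t : Sx b}
    (ht : ∀ y, y ∉ range f → t y = 0) : smap f (res f t) = t := by
  rw [res, smap_smap]
  conv_rhs => rw [← smap_id_apply t]
  refine smap_congr t fun y hy => ?_
  have : y ∈ range f := by
    by_contra h
    exact hy (ht y h)
  exact Function.invFun_eq this

abbrev face {n : ℕ} (i : Fin (n + 2)) : C(Sx n, Sx (n + 1)) := smap i.succAbove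

abbrev degen {n : ℕ} (i : Fin (n + 1)) : C(Sx (n + 1), Sx n) := smap i.predAbove

def bd (n : ℕ) : Set (Sx n) := {t | ∃ i, t i = 0}

lemma continuous_coord {n : ℕ} (i : Fin (n + 1)) : Continuous fun t : Sx n => t i :=
  (continuous_apply i).comp continuous_subtype_val

lemma isClosed_coord {n : ℕ} (i : Fin (n + 1)) : IsClosed {t : Sx n | t i = 0} :=
  isClosed_eq (continuous_coord i) continuous_const

lemma isClosed_bd (n : ℕ) : IsClosed (bd n) := by
  have : bd n = ⋃ i, {t : Sx n | t i = 0} := by ext t; simp [bd]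
  rw [this]
  exact isClosed_iUnion_of_finite isClosed_coord

lemma face_apply_self {n : ℕ} (i : Fin (n + 2)) (s : Sx n) : face i s i = 0 :=
  smap_of_not_mem s (by simp)

lemma face_mem_bd {n : ℕ} (i : Fin (n + 2)) (s : Sx n) : face i s ∈ bd (n + 1) :=
  ⟨i, face_apply_self i s⟩

lemma face_res {n : ℕ} {i : Fin (n + 2)} {t : Sx (n + 1)} (h : t i = 0) :
    face i (res i.succAbove t) = t := by
  refine smap_res fun y hy => ?_
  have : y = i := by simpa using hy
  rw [this, h]

lemma face_apply_succAbove {n : ℕ} (i : Fin (n + 2)) (s : Sx n) (j : Fin (n + 1)) :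
    face i s (i.succAbove j) = s j := smap_of_inj Fin.succAbove_right_injective s j

lemma vtx_mem_bd {n : ℕ} (i : Fin (n + 2)) : (vtx i : Sx (n + 1)) ∈ bd (n + 1) := by
  obtain ⟨j, hj⟩ := exists_ne i
  exact ⟨j, by simp [hj]⟩

lemma smap_mem_bd {a b : ℕ} (hab : a < b) (f : Fin (a + 1) → Fin (b + 1)) (s : Sx a) :
    smap f s ∈ bd b := by
  have : ¬ Function.Surjective f := by
    intro h
    have := Fintype.card_le_of_surjective f h
    simp at this
    omega
  obtain ⟨y, hy⟩ : ∃ y, y ∉ range f := by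
    by_contra h
    push Not at h
    exact this h
  exact ⟨y, smap_of_not_mem s hy⟩

/-- alternating double sums vanish -/
lemma alt_sum_zero {A : Type*} [AddCommGroup A] {n : ℕ} (F : (Fin n → Fin (n + 2)) → A) :
    ∑ i : Fin (n + 2), ∑ j : Fin (n + 1),
      ((-1 : ℤ) ^ (i : ℕ) * (-1) ^ (j : ℕ)) • F (i.succAbove ∘ j.succAbove) = 0 := by
  rw [← Finset.sum_product']
  refine Finset.sum_involution (fun p _ => (p.1.succAbove p.2, p.2.predAbove p.1)) ?_ ?_ ?_ ?_
  · rintro ⟨i, j⟩ _
    have h1 : (i.succAbove j).succAbove ∘ (j.predAbove i).succAbove = i.succAbove ∘ j.succAbove := by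
      funext k
      exact Fin.succAbove_succAbove_succAbove_predAbove i j k
    simp only [h1]
    rw [← add_smul, ← pow_add, ← pow_add, Fin.neg_one_pow_succAbove_add_predAbove]
    simp
  · rintro ⟨i, j⟩ _ _ h
    exact Fin.succAbove_ne i j (congrArg Prod.fst h)
  · intro p _; simp
  · rintro ⟨i, j⟩ _
    simp [Fin.succAbove_succAbove_predAbove, Fin.predAbove_predAbove_succAbove]

/-! ### straight lines -/

def lerp {n : ℕ} (p : unitInterval × Sx n × Sx n) : Sx n :=
  ⟨fun i => (1 - (p.1 : ℝ)) * p.2.1 i + p.1 * p.2.2 i, fun i =>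
    add_nonneg (mul_nonneg (sub_nonneg.2 p.1.2.2) (stdSimplex.zero_le p.2.1 i))
      (mul_nonneg p.1.2.1 (stdSimplex.zero_le p.2.2 i)), by
    simp [Finset.sum_add_distrib, ← Finset.mul_sum]⟩

lemma lerp_apply {n : ℕ} (s : unitInterval) (x y : Sx n) (i : Fin (n + 1)) :
    lerp (s, x, y) i = (1 - (s : ℝ)) * x i + s * y i := rfl

lemma continuous_lerp {n : ℕ} : Continuous (lerp (n := n)) := by
  refine Continuous.subtype_mk (continuous_pi fun i => ?_) _
  have h1 : Continuous fun p : unitInterval × Sx n × Sx n => p.2.1 i :=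
    (continuous_coord i).comp (by fun_prop)
  have h2 : Continuous fun p : unitInterval × Sx n × Sx n => p.2.2 i :=
    (continuous_coord i).comp (by fun_prop)
  fun_prop

@[fun_prop]
lemma Continuous.lerp {n : ℕ} {X : Type*} [TopologicalSpace X] {s : X → unitInterval}
    {x y : X → Sx n} (hs : Continuous s) (hx : Continuous x) (hy : Continuous y) :
    Continuous fun w => lerp (s w, x w, y w) :=
  continuous_lerp.comp (hs.prodMk (hx.prodMk hy))

@[simp] lemma lerp_zero {n : ℕ} (x y : Sx n) : lerp (0, x, y) = x := by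
  apply stdSimplex.ext; funext i; simp [lerp_apply]

@[simp] lemma lerp_one {n : ℕ} (x y : Sx n) : lerp (1, x, y) = y := by
  apply stdSimplex.ext; funext i; simp [lerp_apply]

/-! ### gluing along a finite closed cover -/

lemma exists_glue {B Z ι : Type*} [TopologicalSpace B] [TopologicalSpace Z] [Finite ι]
    [Nonempty Z] (Q : ι → Set B) (hQ : ∀ i, IsClosed (Q i)) (f : ι → B → Z)
    (hf : ∀ i, ContinuousOn (f i) (Q i))
    (hc : ∀ i j x, x ∈ Q i → x ∈ Q j → f i x = f j x) :
    ∃ g : B → Z, ContinuousOn g (⋃ i, Q i) ∧ ∀ i x, x ∈ Q i → g x = f i x := by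
  classical
  let g : B → Z := fun x => if h : ∃ i, x ∈ Q i then f h.choose x else Classical.arbitrary Z
  have hg : ∀ i x, x ∈ Q i → g x = f i x := by
    intro i x hx
    have h : ∃ i, x ∈ Q i := ⟨i, hx⟩
    simp only [g, dif_pos h]
    exact hc _ _ _ h.choose_spec hx
  refine ⟨g, (locallyFinite_of_finite Q).continuousOn_iUnion hQ fun i => ?_, hg⟩
  exact (hf i).congr (hg i)

/-! ### supports -/

lemma exists_supp {N : ℕ} (t : Sx N) :
    ∃ (a : ℕ) (e : Fin (a + 1) → Fin (N + 1)), StrictMono e ∧ (∀ i, i ∈ range e ↔ t i ≠ 0) := by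
  classical
  let S : Finset (Fin (N + 1)) := Finset.univ.filter fun i => t i ≠ 0
  have hS : S.Nonempty := by
    by_contra h
    have h0 : ∀ i, t i = 0 := by
      intro i
      by_contra hi
      exact h ⟨i, by simp [S, hi]⟩
    have := stdSimplex.sum_eq_one t
    simp [h0] at this
  obtain ⟨a, ha⟩ : ∃ a, S.card = a + 1 := ⟨S.card - 1, by have := hS.card_pos; omega⟩
  refine ⟨a, S.orderEmbOfFin ha, (S.orderEmbOfFin ha).strictMono, fun i => ?_⟩
  rw [Finset.range_orderEmbOfFin]
  simp [S]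

lemma exists_factor {a b N : ℕ} {e0 : Fin a → Fin N} {e : Fin b → Fin N} (h0 : StrictMono e0)
    (h : StrictMono e) (hr : range e0 ⊆ range e) :
    ∃ e' : Fin a → Fin b, StrictMono e' ∧ e0 = e ∘ e' := by
  choose e' he' using fun j => hr ⟨j, rfl⟩
  refine ⟨e', fun i j hij => ?_, funext fun j => (he' j).symm⟩
  rw [← h.lt_iff_lt, he', he']
  exact h0 hij

lemma le_of_strictMono {a b : ℕ} {e : Fin (a + 1) → Fin (b + 1)} (h : StrictMono e) : a ≤ b := by
  have := Fintype.card_le_of_injective e h.injective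
  simpa using this

/-- points with at most `k + 1` nonzero coordinates -/
def skel (N k : ℕ) : Set (Sx N) :=
  {t | ∃ S : Finset (Fin (N + 1)), N ≤ S.card + k ∧ ∀ i ∈ S, t i = 0}

lemma bd_subset_skel (n : ℕ) : bd (n + 1) ⊆ skel (n + 1) n := by
  rintro t ⟨i, hi⟩
  exact ⟨{i}, by simp [add_comm], by simpa using hi⟩

lemma supp_le_of_mem_skel {N k a : ℕ} {t : Sx N} (ht : t ∈ skel N k)
    {e : Fin (a + 1) → Fin (N + 1)} (he : StrictMono e) (hr : ∀ i, i ∈ range e ↔ t i ≠ 0) :
    a ≤ k := by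
  classical
  obtain ⟨S, hS, h0⟩ := ht
  have hd : Disjoint S (Finset.univ.image e) := by
    rw [Finset.disjoint_left]
    intro i hi hi'
    obtain ⟨j, -, rfl⟩ := Finset.mem_image.1 hi'
    exact (hr _).1 ⟨j, rfl⟩ (h0 _ hi)
  have h1 := Finset.card_le_univ (S ∪ Finset.univ.image e)
  rw [Finset.card_union_of_disjoint hd, Finset.card_image_of_injective _ he.injective] at h1
  simp at h1
  omega

/-- gluing compatible maps on the faces of dimension at most `k` -/
lemma glue_skel {Z : Type*} [TopologicalSpace Z] [Nonempty Z] (N k : ℕ)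
    (V : ∀ a : ℕ, (Fin (a + 1) → Fin (N + 1)) → C(Sx a, Z))
    (hV : ∀ a b, b ≤ k → ∀ (e : Fin (b + 1) → Fin (N + 1)) (e' : Fin (a + 1) → Fin (b + 1)),
      StrictMono e → StrictMono e' → ∀ s, V b e (smap e' s) = V a (e ∘ e') s) :
    ∃ g : Sx N → Z, ContinuousOn g (skel N k) ∧
      ∀ a, a ≤ k → ∀ e : Fin (a + 1) → Fin (N + 1), StrictMono e → ∀ s, g (smap e s) = V a e s := by
  let ι := Σ a : Fin (k + 1), {e : Fin (a + 1) → Fin (N + 1) // StrictMono e}
  let Q : ι → Set (Sx N) := fun p => {t | ∀ y, y ∉ range p.2.1 → t y = 0}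
  have key : ∀ (p : ι) (t : Sx N), t ∈ Q p → ∀ a (e : Fin (a + 1) → Fin (N + 1)), StrictMono e →
      (∀ i, i ∈ range e ↔ t i ≠ 0) → V p.1 p.2.1 (res p.2.1 t) = V a e (res e t) := by
    rintro ⟨b, e1, he1⟩ t ht a e he hr
    obtain ⟨e', he', rfl⟩ := exists_factor he he1 (fun i hi => by
      by_contra h
      exact (hr i).1 hi (ht i h))
    have h1 : smap (e1 ∘ e') (res (e1 ∘ e') t) = t :=
      smap_res fun y hy => by
        by_contra h
        exact hy ((hr y).2 h)
    rw [← hV a b (Nat.lt_succ_iff.1 b.2) e1 e' he1 he']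
    congr 1
    conv_lhs => rw [← h1, ← smap_smap, res_smap he1.injective]
  have hQ : ∀ p, IsClosed (Q p) := by
    intro p
    have : Q p = ⋂ y : {y // y ∉ range p.2.1}, {t : Sx N | t y = 0} := by
      ext t; simp [Q]
    rw [this]
    exact isClosed_iInter fun y => isClosed_coord _
  obtain ⟨g, hg, hg'⟩ := exists_glue Q hQ (fun p t => V p.1 p.2.1 (res p.2.1 t))
    (fun p => (by fun_prop : Continuous _).continuousOn) (fun p q t hp hq => by
      obtain ⟨a, e, he, hr⟩ := exists_supp t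
      rw [key p t hp a e he hr, key q t hq a e he hr])
  refine ⟨g, hg.mono fun t ht => ?_, fun a ha e he s => ?_⟩
  · obtain ⟨a, e, he, hr⟩ := exists_supp t
    have := supp_le_of_mem_skel ht he hr
    refine mem_iUnion.2 ⟨⟨⟨a, Nat.lt_succ_of_le this⟩, e, he⟩, fun y hy => ?_⟩
    by_contra h
    exact hy ((hr y).2 h)
  · rw [hg' ⟨⟨a, Nat.lt_succ_of_le ha⟩, e, he⟩ _ (fun y hy => smap_of_not_mem s hy)]
    show V a e (res e (smap e s)) = _
    rw [res_smap he.injective]

/-- a self map of the simplex with values in the `k`-skeleton fixing the `(k-1)`-skeleton -/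
lemma exists_cone_retraction (N k : ℕ) :
    ∃ r : C(Sx N, Sx N), (∀ t, r t ∈ skel N k) ∧
      ∀ a, a < k → ∀ (e : Fin (a + 1) → Fin (N + 1)) (s : Sx a), r (smap e s) = smap e s := by
  classical
  let F : Finset (Finset (Fin (N + 1))) := Finset.univ.filter fun S => 0 ∉ S ∧ N ≤ S.card + k
  have hF : F.Nonempty := ⟨Finset.univ.erase 0, by simp [F]⟩
  let μ : Sx N → ℝ := fun t => F.inf' hF fun S => ∑ i ∈ S, t i
  have hμc : Continuous μ :=
    Continuous.finset_inf'_apply hF fun S _ => continuous_finsetSum _ fun i _ => continuous_coord i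
  have hμ0 : ∀ t, 0 ≤ μ t := fun t =>
    Finset.le_inf' _ _ fun S _ => Finset.sum_nonneg fun i _ => stdSimplex.zero_le t i
  let r0 : Sx N → Fin (N + 1) → ℝ := fun t =>
    Fin.cons (1 - ∑ i : Fin N, max 0 (t i.succ - μ t)) fun i : Fin N => max 0 (t i.succ - μ t)
  have hr0 : ∀ t, r0 t ∈ stdSimplex ℝ (Fin (N + 1)) := by
    intro t
    refine ⟨fun i => ?_, by simp [r0, Fin.sum_univ_succ]⟩
    refine Fin.cases ?_ (fun i => ?_) i
    · have h1 := stdSimplex.sum_eq_one t
      rw [Fin.sum_univ_succ] at h1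
      have h2 : ∑ i : Fin N, max 0 (t i.succ - μ t) ≤ ∑ i : Fin N, t i.succ :=
        Finset.sum_le_sum fun i _ => max_le (stdSimplex.zero_le t _) (by linarith [hμ0 t])
      simp only [r0, Fin.cons_zero]
      linarith [stdSimplex.zero_le t 0]
    · simp [r0]
  have hc : Continuous fun t => (⟨r0 t, hr0 t⟩ : Sx N) := by
    refine Continuous.subtype_mk (continuous_pi fun i => ?_) _
    have : ∀ i : Fin N, Continuous fun t : Sx N => max 0 (t i.succ - μ t) := fun i =>
      continuous_const.max ((continuous_coord _).sub hμc)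
    refine Fin.cases ?_ (fun i => ?_) i
    · simp only [r0, Fin.cons_zero]
      exact continuous_const.sub (continuous_finsetSum _ fun i _ => this i)
    · simpa [r0] using this i
  refine ⟨⟨_, hc⟩, fun t => ?_, fun a ha e s => ?_⟩
  · obtain ⟨S, hS, hS'⟩ := Finset.exists_mem_eq_inf' hF fun S => ∑ i ∈ S, t i
    simp only [F, Finset.mem_filter, Finset.mem_univ, true_and] at hS
    refine ⟨S, hS.2, fun i hi => ?_⟩
    obtain ⟨j, rfl⟩ := Fin.exists_succ_eq.2 (show i ≠ 0 by rintro rfl; exact hS.1 hi)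
    show r0 t j.succ = 0
    simp only [r0, Fin.cons_succ]
    refine max_eq_left ?_
    have : t j.succ ≤ ∑ i ∈ S, t i := Finset.single_le_sum (fun i _ => stdSimplex.zero_le t i) hi
    simp only [μ]
    linarith
  · have h0 : μ (smap e s) = 0 := by
      refine le_antisymm ?_ (hμ0 _)
      have hm : (insert 0 (Finset.univ.image e))ᶜ ∈ F := by
        simp only [F, Finset.mem_filter, Finset.mem_univ, true_and]
        refine ⟨by simp, ?_⟩
        rw [Finset.card_compl]
        have h1 := Finset.card_insert_le (0 : Fin (N + 1)) (Finset.univ.image e)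
        have h2 := Finset.card_image_le (s := Finset.univ) (f := e)
        simp at h2 ⊢
        omega
      refine (Finset.inf'_le _ hm).trans (le_of_eq (Finset.sum_eq_zero fun i hi => ?_))
      refine smap_of_not_mem s ?_
      rintro ⟨j, rfl⟩
      simp at hi
    apply stdSimplex.ext
    funext i
    show r0 (smap e s) i = _
    have h1 := stdSimplex.sum_eq_one (smap e s)
    rw [Fin.sum_univ_succ] at h1
    refine Fin.cases ?_ (fun i => ?_) i
    · simp only [r0, Fin.cons_zero, h0, sub_zero]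
      rw [Finset.sum_congr rfl fun i _ => max_eq_right (stdSimplex.zero_le (smap e s) i.succ)]
      linarith
    · simp [r0, h0]

/-! ### maps on the boundary and their extensions -/

abbrev Bd (n : ℕ) : Type := bd (n + 1)

def faceB {n : ℕ} (i : Fin (n + 2)) : C(Sx n, Bd n) :=
  ⟨fun s => ⟨face i s, face_mem_bd i s⟩, by fun_prop⟩

def inclB (n : ℕ) : C(Bd n, Sx (n + 1)) := ⟨Subtype.val, continuous_subtype_val⟩

@[simp] lemma inclB_apply {n : ℕ} (t : Bd n) : inclB n t = t.1 := rfl

@[simp] lemma faceB_val {n : ℕ} (i : Fin (n + 2)) (s : Sx n) : (faceB i s).1 = face i s := rfl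

lemma faceB_res {n : ℕ} {i : Fin (n + 2)} {t : Bd n} (h : t.1 i = 0) :
    faceB i (res i.succAbove t.1) = t := Subtype.ext (face_res h)

def Extends {n : ℕ} {Z : Type*} [TopologicalSpace Z] (ω : C(Bd n, Z)) : Prop :=
  ∃ y : C(Sx (n + 1), Z), ∀ t : Bd n, y t.1 = ω t

lemma Extends.of_homotopy {n : ℕ} {Z : Type*} [TopologicalSpace Z] {ω0 ω1 : C(Bd n, Z)}
    (h : C(unitInterval × Bd n, Z)) (h0 : ∀ t, h (0, t) = ω0 t) (h1 : ∀ t, h (1, t) = ω1 t)
    (he : Extends ω0) : Extends ω1 := by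
  classical
  obtain ⟨y, hy⟩ := he
  let c : ℝ := n + 2
  have hc : 0 < c := by positivity
  let μ : Sx (n + 1) → ℝ := fun t => Finset.univ.inf' Finset.univ_nonempty fun i => t i
  have hμc : Continuous μ :=
    Continuous.finset_inf'_apply _ fun i _ => continuous_coord i
  have hμ0 : ∀ t, 0 ≤ μ t := fun t => Finset.le_inf' _ _ fun i _ => stdSimplex.zero_le t i
  have hμle : ∀ t i, μ t ≤ t i := fun t i => Finset.inf'_le _ (Finset.mem_univ i)
  let m : Sx (n + 1) → ℝ := fun t => min (μ t) (1 / (2 * c))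
  have hmc : Continuous m := hμc.min continuous_const
  have hm0 : ∀ t, 0 ≤ m t := fun t => le_min (hμ0 t) (by positivity)
  have hm1 : ∀ t, 2 * c * m t ≤ 1 := fun t => by
    have : m t ≤ 1 / (2 * c) := min_le_right _ _
    rwa [le_div_iff₀ (by positivity), mul_comm] at this
  have hden : ∀ t, 0 < 1 - c * m t := fun t => by nlinarith [hm1 t, hm0 t]
  let ρ : Sx (n + 1) → Sx (n + 1) := fun t => ⟨fun i => (t i - m t) / (1 - c * m t),
    fun i => div_nonneg (sub_nonneg.2 ((min_le_left _ _).trans (hμle t i))) (hden t).le, by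
      rw [← Finset.sum_div, Finset.sum_sub_distrib, div_eq_one_iff_eq (hden t).ne']
      simp only [stdSimplex.sum_eq_one, Finset.sum_const, Finset.card_univ, Fintype.card_fin,
        nsmul_eq_mul, c]
      push_cast
      ring⟩
  have hρ : Continuous ρ := by
    refine Continuous.subtype_mk (continuous_pi fun i => ?_) _
    exact ((continuous_coord i).sub hmc).div (continuous_const.sub (continuous_const.mul hmc))
      fun t => (hden t).ne'
  let τ : Sx (n + 1) → unitInterval := fun t => ⟨1 - 2 * c * m t, by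
    constructor
    · linarith [hm1 t]
    · have := hm0 t
      have : 0 ≤ 2 * c * m t := by positivity
      linarith⟩
  have hτ : Continuous τ :=
    Continuous.subtype_mk (continuous_const.sub (continuous_const.mul hmc)) _
  let g : Sx (n + 1) → Z := fun t => if hb : ρ t ∈ bd (n + 1) then h (τ t, ⟨ρ t, hb⟩) else y (ρ t)
  have hcov : ∀ t, ρ t ∈ bd (n + 1) ∨ τ t = 0 := by
    intro t
    rcases le_total (μ t) (1 / (2 * c)) with h | h
    · left
      obtain ⟨i, -, hi⟩ := Finset.exists_mem_eq_inf' Finset.univ_nonempty fun i => t i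
      refine ⟨i, ?_⟩
      show (t i - m t) / (1 - c * m t) = 0
      have : m t = t i := (min_eq_left h).trans hi
      rw [this, sub_self, zero_div]
    · right
      apply Subtype.ext
      show 1 - 2 * c * m t = 0
      have : m t = 1 / (2 * c) := min_eq_right h
      rw [this]
      field_simp
      ring
  have hg : Continuous g := by
    have hA : IsClosed {t | ρ t ∈ bd (n + 1)} := (isClosed_bd _).preimage hρ
    have hB : IsClosed {t | τ t = 0} := isClosed_eq hτ continuous_const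
    have h1 : ContinuousOn g {t | ρ t ∈ bd (n + 1)} := by
      rw [continuousOn_iff_continuous_domRestrict]
      have : Continuous fun t : {t | ρ t ∈ bd (n + 1)} => h (τ t.1, ⟨ρ t.1, t.2⟩) :=
        h.continuous.comp ((hτ.comp continuous_subtype_val).prodMk
          ((hρ.comp continuous_subtype_val).subtype_mk _))
      refine this.congr fun t => ?_
      show _ = g t.1
      have ht : ρ t.1 ∈ bd (n + 1) := t.2
      simp only [g, dif_pos ht]
    have h2 : ContinuousOn g {t | τ t = 0} := by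
      refine (y.continuous.comp hρ).continuousOn.congr fun t ht => ?_
      simp only [g]
      split_ifs with hb
      · rw [show τ t = 0 from ht, h0, ← hy]; rfl
      · rfl
    have := h1.union_of_isClosed h2 hA hB
    rwa [show ({t | ρ t ∈ bd (n + 1)} ∪ {t | τ t = 0}) = univ from
      eq_univ_of_forall fun t => hcov t, continuousOn_univ] at this
  refine ⟨⟨g, hg⟩, fun t => ?_⟩
  have hm : m t.1 = 0 := by
    obtain ⟨i, hi⟩ := t.2
    exact le_antisymm ((min_le_left _ _).trans ((hμle _ i).trans hi.le)) (hm0 _)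
  have e1 : ρ t.1 = t.1 := by
    apply stdSimplex.ext
    funext i
    show (t.1 i - m t.1) / (1 - c * m t.1) = _
    simp [hm]
  have e2 : τ t.1 = 1 := by
    apply Subtype.ext
    show 1 - 2 * c * m t.1 = 1
    simp [hm]
  show g t.1 = _
  have hb : ρ t.1 ∈ bd (n + 1) := by rw [e1]; exact t.2
  simp only [g, dif_pos hb]
  rw [e2, ← h1]
  congr 2
  exact Subtype.ext e1

end Pool.Agent.H80

end
end MrgPart0

-- ======== part 1: formerly Pool.Agent.Lib.helper80.Chains
section MrgPart1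

/-! Concrete singular chains, barycentric subdivision and a Mayer-Vietoris type argument. -/

open Set Topology Finsupp

noncomputable section

namespace Pool.Agent.H80

abbrev Ch (n : ℕ) (E : Type*) [TopologicalSpace E] : Type _ := C(Sx n, E) →₀ ℤ

variable {E F : Type*} [TopologicalSpace E] [TopologicalSpace F]

def bdry (n : ℕ) : Ch (n + 1) E →ₗ[ℤ] Ch n E :=
  linearCombination ℤ fun σ => ∑ i : Fin (n + 2), (-1 : ℤ) ^ (i : ℕ) • single (σ.comp (face i)) 1

lemma bdry_single {n : ℕ} (σ : C(Sx (n + 1), E)) :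
    bdry n (single σ 1) = ∑ i : Fin (n + 2), (-1 : ℤ) ^ (i : ℕ) • single (σ.comp (face i)) 1 := by
  simp only [bdry, linearCombination_single, one_smul]

def push (n : ℕ) (f : C(E, F)) : Ch n E →ₗ[ℤ] Ch n F := lmapDomain ℤ ℤ f.comp

lemma push_single {n : ℕ} (f : C(E, F)) (σ : C(Sx n, E)) :
    push n f (single σ 1) = single (f.comp σ) 1 := by
  simp [push]

def In (n : ℕ) (A : Set E) : Submodule ℤ (Ch n E) := supported ℤ ℤ {σ | ∀ t, σ t ∈ A}

lemma lin_ext {α M : Type*} [AddCommGroup M] {L L' : (α →₀ ℤ) →ₗ[ℤ] M}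
    (h : ∀ a, L (single a 1) = L' (single a 1)) (z : α →₀ ℤ) : L z = L' z := by
  have : L = L' := by
    ext a
    simpa using h a
  rw [this]

lemma lin_mem {α M : Type*} [AddCommGroup M] (L : (α →₀ ℤ) →ₗ[ℤ] M) {S : Set α}
    {P : Submodule ℤ M} (h : ∀ a ∈ S, L (single a 1) ∈ P) {z : α →₀ ℤ}
    (hz : z ∈ supported ℤ ℤ S) : L z ∈ P := by
  rw [supported_eq_span_single] at hz
  have : Submodule.span ℤ ((fun i => single i (1 : ℤ)) '' S) ≤ P.comap L := by
    rw [Submodule.span_le]
    rintro _ ⟨a, ha, rfl⟩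
    exact h a ha
  exact this hz

lemma single_mem_In {n : ℕ} {A : Set E} {σ : C(Sx n, E)} (h : ∀ t, σ t ∈ A) :
    single σ (1 : ℤ) ∈ In n A := single_mem_supported ℤ 1 h

lemma In_mono {n : ℕ} {A B : Set E} (h : A ⊆ B) : In n A ≤ In n B :=
  supported_mono fun _ hσ t => h (hσ t)

lemma mem_In_univ {n : ℕ} (z : Ch n E) : z ∈ In n (univ : Set E) := fun _ _ _ => trivial

lemma mem_In_inter {n : ℕ} {A B : Set E} {z : Ch n E} (hA : z ∈ In n A) (hB : z ∈ In n B) :
    z ∈ In n (A ∩ B) := fun _ hσ t => ⟨hA hσ t, hB hσ t⟩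

lemma bdry_mem {n : ℕ} {A : Set E} {z : Ch (n + 1) E} (hz : z ∈ In (n + 1) A) :
    bdry n z ∈ In n A := by
  refine lin_mem _ (fun σ hσ => ?_) hz
  rw [bdry_single]
  exact Submodule.sum_mem _ fun i _ => Submodule.smul_mem _ _ (single_mem_In fun t => hσ _)

lemma push_mem {n : ℕ} {A : Set E} {B : Set F} (f : C(E, F)) (h : MapsTo f A B) {z : Ch n E}
    (hz : z ∈ In n A) : push n f z ∈ In n B := by
  refine lin_mem _ (fun σ hσ => ?_) hz
  rw [push_single]
  exact single_mem_In fun t => h (hσ t)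

lemma bdry_push {n : ℕ} (f : C(E, F)) (z : Ch (n + 1) E) :
    bdry n (push (n + 1) f z) = push n f (bdry n z) := by
  refine lin_ext (L := bdry n ∘ₗ push (n + 1) f) (L' := push n f ∘ₗ bdry n) (fun σ => ?_) z
  simp only [LinearMap.comp_apply, push_single, bdry_single, map_sum, map_smul]
  rfl

lemma push_push {G : Type*} [TopologicalSpace G] {n : ℕ} (f : C(E, F)) (g : C(F, G))
    (z : Ch n E) : push n g (push n f z) = push n (g.comp f) z := by
  refine lin_ext (L := push n g ∘ₗ push n f) (fun σ => ?_) z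
  simp only [LinearMap.comp_apply, push_single]
  rfl

lemma push_id {n : ℕ} (z : Ch n E) : push n (ContinuousMap.id E) z = z := by
  refine lin_ext (L' := LinearMap.id) (fun σ => ?_) z
  simp [push_single]

lemma bdry_bdry {n : ℕ} (z : Ch (n + 2) E) : bdry n (bdry (n + 1) z) = 0 := by
  refine lin_ext (L := bdry n ∘ₗ bdry (n + 1)) (L' := 0) (fun σ => ?_) z
  simp only [LinearMap.comp_apply, bdry_single, map_sum, map_smul, LinearMap.zero_apply,
    Finset.smul_sum, smul_smul, ContinuousMap.comp_assoc, smap_comp]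
  exact alt_sum_zero fun e => single (σ.comp (smap e)) (1 : ℤ)

/-- relative cycles -/
def Cyc : ∀ (n : ℕ) (_ : Set E) (_ : Ch n E), Prop
  | 0, _, _ => True
  | n + 1, A, z => bdry n z ∈ In n A

lemma Cyc.mono {n : ℕ} {A B : Set E} (h : A ⊆ B) {z : Ch n E} (hz : Cyc n A z) : Cyc n B z := by
  cases n with
  | zero => trivial
  | succ n => exact In_mono h hz

/-- the pair `(B, A)` has no relative homology -/
def Acyc (B A : Set E) : Prop :=
  ∀ (n : ℕ), ∀ z ∈ In n B, Cyc n A z → ∃ w ∈ In (n + 1) B, z - bdry n w ∈ In n A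

/-! ### affine chains -/

abbrev Tup (k N : ℕ) : Type := (Fin k → Sx N) →₀ ℤ

def tbd (k N : ℕ) : Tup (k + 1) N →ₗ[ℤ] Tup k N :=
  linearCombination ℤ fun w => ∑ i : Fin (k + 1), (-1 : ℤ) ^ (i : ℕ) • single (w ∘ i.succAbove) 1

lemma tbd_single {k N : ℕ} (w : Fin (k + 1) → Sx N) :
    tbd k N (single w 1) =
      ∑ i : Fin (k + 1), (-1 : ℤ) ^ (i : ℕ) • single (w ∘ i.succAbove) 1 := by
  simp only [tbd, linearCombination_single, one_smul]

def cone {k N : ℕ} (b : Sx N) : Tup k N →ₗ[ℤ] Tup (k + 1) N :=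
  lmapDomain ℤ ℤ fun w => Fin.cons b w

lemma cone_single {k N : ℕ} (b : Sx N) (w : Fin k → Sx N) :
    cone b (single w 1) = single (Fin.cons b w) 1 := by simp [cone]

def tpush (k : ℕ) {N M : ℕ} (e : Fin (N + 1) → Fin (M + 1)) : Tup k N →ₗ[ℤ] Tup k M :=
  lmapDomain ℤ ℤ fun w => smap e ∘ w

lemma tpush_single {k N M : ℕ} (e : Fin (N + 1) → Fin (M + 1)) (w : Fin k → Sx N) :
    tpush k e (single w 1) = single (smap e ∘ w) 1 := by simp [tpush]

lemma tbd_cone {k N : ℕ} (b : Sx N) (x : Tup (k + 1) N) :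
    tbd (k + 1) N (cone b x) = x - cone b (tbd k N x) := by
  refine lin_ext (L := tbd (k + 1) N ∘ₗ cone b) (L' := LinearMap.id - cone b ∘ₗ tbd k N)
    (fun w => ?_) x
  simp only [LinearMap.comp_apply, cone_single, tbd_single, LinearMap.sub_apply, LinearMap.id_apply,
    map_sum, map_smul]
  rw [Fin.sum_univ_succ, sub_eq_add_neg, ← Finset.sum_neg_distrib]
  congr 1
  · simp only [Fin.val_zero, pow_zero, one_smul]
    rfl
  · refine Finset.sum_congr rfl fun i _ => ?_
    rw [Fin.val_succ, pow_succ, mul_neg_one, neg_smul]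
    congr 3
    funext j
    refine Fin.cases ?_ (fun j => ?_) j
    · simp
    · simp

lemma tbd_tpush {k N M : ℕ} (e : Fin (N + 1) → Fin (M + 1)) (x : Tup (k + 1) N) :
    tbd k M (tpush (k + 1) e x) = tpush k e (tbd k N x) := by
  refine lin_ext (L := tbd k M ∘ₗ tpush (k + 1) e) (L' := tpush k e ∘ₗ tbd k N) (fun w => ?_) x
  simp only [LinearMap.comp_apply, tpush_single, tbd_single, map_sum, map_smul]
  rfl

lemma tpush_tpush {k N M L : ℕ} (e : Fin (N + 1) → Fin (M + 1)) (f : Fin (M + 1) → Fin (L + 1))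
    (x : Tup k N) : tpush k f (tpush k e x) = tpush k (f ∘ e) x := by
  refine lin_ext (L := tpush k f ∘ₗ tpush k e) (fun w => ?_) x
  simp only [LinearMap.comp_apply, tpush_single]
  congr 1
  funext j
  exact smap_smap e f _

def tfaces (k n : ℕ) : Tup k n →ₗ[ℤ] Tup k (n + 1) :=
  ∑ i : Fin (n + 2), (-1 : ℤ) ^ (i : ℕ) • tpush k i.succAbove

lemma tfaces_apply {k n : ℕ} (x : Tup k n) :
    tfaces k n x = ∑ i : Fin (n + 2), (-1 : ℤ) ^ (i : ℕ) • tpush k i.succAbove x := by
  simp [tfaces]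

lemma tbd_tfaces {k n : ℕ} (x : Tup (k + 1) n) :
    tbd k (n + 1) (tfaces (k + 1) n x) = tfaces k n (tbd k n x) := by
  simp only [tfaces_apply, map_sum, map_smul, tbd_tpush]

lemma tfaces_tfaces {k n : ℕ} (x : Tup k n) : tfaces k (n + 1) (tfaces k n x) = 0 := by
  rw [tfaces_apply]
  simp only [tfaces_apply, map_sum, map_smul, tpush_tpush, Finset.smul_sum, smul_smul]
  exact alt_sum_zero fun e => tpush k e x

def std (n : ℕ) : Tup (n + 1) n := single vtx 1

lemma tbd_std (n : ℕ) : tbd (n + 1) (n + 1) (std (n + 1)) = tfaces (n + 1) n (std n) := by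
  rw [std, std, tbd_single, tfaces_apply]
  refine Finset.sum_congr rfl fun i _ => ?_
  rw [tpush_single]
  congr 2
  funext j
  simp

def sdc : ∀ n : ℕ, Tup (n + 1) n
  | 0 => std 0
  | n + 1 => cone stdSimplex.barycenter (tfaces (n + 1) n (sdc n))

def sdh : ∀ n : ℕ, Tup (n + 1 + 1) n
  | 0 => 0
  | n + 1 => cone stdSimplex.barycenter (std (n + 1) - tfaces (n + 1 + 1) n (sdh n))

lemma sdc_zero : sdc 0 = std 0 := rfl

lemma sdc_succ (n : ℕ) :
    sdc (n + 1) = cone stdSimplex.barycenter (tfaces (n + 1) n (sdc n)) := rfl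

lemma sdh_zero : sdh 0 = 0 := rfl

lemma sdh_succ (n : ℕ) :
    sdh (n + 1) = cone stdSimplex.barycenter (std (n + 1) - tfaces (n + 1 + 1) n (sdh n)) := rfl

attribute [irreducible] sdc sdh

lemma tbd_sdc : ∀ n : ℕ, tbd (n + 1) (n + 1) (sdc (n + 1)) = tfaces (n + 1) n (sdc n)
  | 0 => by
    have : tfaces 0 0 (tbd 0 0 (sdc 0)) = 0 := by
      rw [sdc_zero, std, tbd_single, tfaces_apply (k := 0)]
      simp only [Fin.sum_univ_succ, Fin.sum_univ_zero, map_add, map_smul, tpush_single]
      rw [Subsingleton.elim (_ ∘ _ : Fin 0 → Sx 1) (fun i => i.elim0),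
        Subsingleton.elim (_ ∘ _ : Fin 0 → Sx 1) (fun i => i.elim0)]
      simp
    rw [sdc_succ, tbd_cone, tbd_tfaces, this, map_zero, sub_zero]
  | n + 1 => by
    rw [sdc_succ, tbd_cone, tbd_tfaces, tbd_sdc n, tfaces_tfaces, map_zero, sub_zero]

lemma tbd_sdh_zero : tbd (0 + 1) 0 (sdh 0) = std 0 - sdc 0 := by
  rw [sdh_zero, sdc_zero, map_zero, sub_self]

lemma tbd_sdh : ∀ n : ℕ, tbd (n + 1 + 1) (n + 1) (sdh (n + 1)) =
    std (n + 1) - sdc (n + 1) - tfaces (n + 1 + 1) n (sdh n)
  | 0 => by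
    rw [sdh_succ, tbd_cone, map_sub, tbd_tfaces, tbd_sdh_zero, tbd_std, map_sub (tfaces _ _),
      sub_sub_cancel, ← sdc_succ, sub_right_comm]
  | n + 1 => by
    rw [sdh_succ, tbd_cone, map_sub, tbd_tfaces, tbd_sdh n, tbd_std, map_sub (tfaces _ _),
      map_sub (tfaces _ _), tfaces_tfaces, sub_zero, sub_sub_cancel, ← sdc_succ, sub_right_comm]

def aff {k N : ℕ} (w : Fin (k + 1) → Sx N) : C(Sx k, Sx N) where
  toFun t := ⟨fun i => ∑ j, t j * w j i, fun i => Finset.sum_nonneg fun j _ =>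
    mul_nonneg (stdSimplex.zero_le t j) (stdSimplex.zero_le _ i), by
      rw [Finset.sum_comm]
      simp [← Finset.mul_sum]⟩
  continuous_toFun := Continuous.subtype_mk (continuous_pi fun i =>
    continuous_finsetSum _ fun j _ => (continuous_coord j).mul continuous_const) _

lemma aff_apply {k N : ℕ} (w : Fin (k + 1) → Sx N) (t : Sx k) (i : Fin (N + 1)) :
    aff w t i = ∑ j, t j * w j i := rfl

lemma sum_smap_mul {a b : ℕ} (e : Fin (a + 1) → Fin (b + 1)) (s : Sx a) (g : Fin (b + 1) → ℝ) :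
    ∑ j, smap e s j * g j = ∑ x, s x * g (e x) := by
  simp only [smap_apply, Finset.sum_mul]
  rw [← Finset.sum_fiberwise (s := Finset.univ) (g := e) (f := fun x => s x * g (e x))]
  refine Finset.sum_congr rfl fun j _ => Finset.sum_congr rfl fun x hx => ?_
  rw [(Finset.mem_filter.1 hx).2]

lemma aff_smap {a k N : ℕ} (w : Fin (k + 1) → Sx N) (e : Fin (a + 1) → Fin (k + 1)) :
    (aff w).comp (smap e) = aff (w ∘ e) := by
  ext1 s
  apply stdSimplex.ext
  funext i
  exact sum_smap_mul e s fun j => w j i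

lemma smap_aff {k N M : ℕ} (w : Fin (k + 1) → Sx N) (e : Fin (N + 1) → Fin (M + 1)) :
    (smap e).comp (aff w) = aff (smap e ∘ w) := by
  ext1 s
  apply stdSimplex.ext
  funext i
  simp only [ContinuousMap.comp_apply, smap_apply, aff_apply, Function.comp_apply, Finset.mul_sum]
  exact Finset.sum_comm

lemma aff_vtx (n : ℕ) : aff (vtx : Fin (n + 1) → Sx n) = ContinuousMap.id _ := by
  ext1 s
  apply stdSimplex.ext
  funext i
  simp [aff_apply, Pi.single_apply]

def real (k : ℕ) {N : ℕ} (σ : C(Sx N, E)) : Tup (k + 1) N →ₗ[ℤ] Ch k E :=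
  lmapDomain ℤ ℤ fun w => σ.comp (aff w)

lemma real_single {k N : ℕ} (σ : C(Sx N, E)) (w : Fin (k + 1) → Sx N) :
    real k σ (single w 1) = single (σ.comp (aff w)) 1 := by simp [real]

lemma bdry_real {k N : ℕ} (σ : C(Sx N, E)) (x : Tup (k + 1 + 1) N) :
    bdry k (real (k + 1) σ x) = real k σ (tbd (k + 1) N x) := by
  refine lin_ext (L := bdry k ∘ₗ real (k + 1) σ) (L' := real k σ ∘ₗ tbd (k + 1) N) (fun w => ?_) x
  simp only [LinearMap.comp_apply, real_single, bdry_single, tbd_single, map_sum, map_smul,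
    ContinuousMap.comp_assoc, aff_smap]

lemma real_tpush {k N M : ℕ} (σ : C(Sx M, E)) (e : Fin (N + 1) → Fin (M + 1))
    (x : Tup (k + 1) N) : real k σ (tpush (k + 1) e x) = real k (σ.comp (smap e)) x := by
  refine lin_ext (L := real k σ ∘ₗ tpush (k + 1) e) (fun w => ?_) x
  simp only [LinearMap.comp_apply, real_single, tpush_single, ContinuousMap.comp_assoc, smap_aff]

lemma real_std {n : ℕ} (σ : C(Sx n, E)) : real n σ (std n) = single σ 1 := by
  rw [std, real_single, aff_vtx, ContinuousMap.comp_id]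

lemma real_mem {k N : ℕ} {A : Set E} {σ : C(Sx N, E)} (h : ∀ t, σ t ∈ A) (x : Tup (k + 1) N) :
    real k σ x ∈ In k A := by
  refine lin_mem (S := univ) _ (fun w _ => ?_) (by simp)
  rw [real_single]
  exact single_mem_In fun t => h _

def Sd (n : ℕ) : Ch n E →ₗ[ℤ] Ch n E := linearCombination ℤ fun σ => real n σ (sdc n)

def Th (n : ℕ) : Ch n E →ₗ[ℤ] Ch (n + 1) E := linearCombination ℤ fun σ => real (n + 1) σ (sdh n)

lemma Sd_single {n : ℕ} (σ : C(Sx n, E)) : Sd n (single σ 1) = real n σ (sdc n) := by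
  simp only [Sd, linearCombination_single, one_smul]

lemma Th_single {n : ℕ} (σ : C(Sx n, E)) : Th n (single σ 1) = real (n + 1) σ (sdh n) := by
  simp only [Th, linearCombination_single, one_smul]

lemma Sd_mem {n : ℕ} {A : Set E} {z : Ch n E} (hz : z ∈ In n A) : Sd n z ∈ In n A :=
  lin_mem _ (fun σ hσ => by rw [Sd_single]; exact real_mem hσ _) hz

lemma Th_mem {n : ℕ} {A : Set E} {z : Ch n E} (hz : z ∈ In n A) : Th n z ∈ In (n + 1) A :=
  lin_mem _ (fun σ hσ => by rw [Th_single]; exact real_mem hσ _) hz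

lemma bdry_Sd {n : ℕ} (z : Ch (n + 1) E) : bdry n (Sd (n + 1) z) = Sd n (bdry n z) := by
  refine lin_ext (L := bdry n ∘ₗ Sd (n + 1)) (L' := Sd n ∘ₗ bdry n) (fun σ => ?_) z
  simp only [LinearMap.comp_apply, Sd_single, bdry_real, tbd_sdc, tfaces_apply, map_sum, map_smul,
    real_tpush, bdry_single]

lemma bdry_Th_zero (z : Ch 0 E) : bdry 0 (Th 0 z) = z - Sd 0 z := by
  refine lin_ext (L := bdry 0 ∘ₗ Th 0) (L' := LinearMap.id - Sd 0) (fun σ => ?_) z
  simp only [LinearMap.comp_apply, Th_single, bdry_real, tbd_sdh_zero, map_sub, real_std,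
    LinearMap.sub_apply, LinearMap.id_apply, Sd_single]

lemma bdry_Th {n : ℕ} (z : Ch (n + 1) E) :
    bdry (n + 1) (Th (n + 1) z) = z - Sd (n + 1) z - Th n (bdry n z) := by
  refine lin_ext (L := bdry (n + 1) ∘ₗ Th (n + 1))
    (L' := LinearMap.id - Sd (n + 1) - Th n ∘ₗ bdry n) (fun σ => ?_) z
  simp only [LinearMap.comp_apply, Th_single, bdry_real, tbd_sdh, map_sub, real_std,
    LinearMap.sub_apply, LinearMap.id_apply, Sd_single, tfaces_apply, map_sum, map_smul,
    real_tpush, bdry_single]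

lemma Cyc.Sd {n : ℕ} {A : Set E} {z : Ch n E} (hz : Cyc n A z) : Cyc n A (Sd n z) := by
  cases n with
  | zero => trivial
  | succ n =>
    show _ ∈ _
    rw [bdry_Sd]
    exact Sd_mem hz

lemma Sd_homologous {n : ℕ} {A B : Set E} {z : Ch n E} (hB : z ∈ In n B) (hz : Cyc n A z) :
    ∃ w ∈ In (n + 1) B, z - Sd n z - bdry n w ∈ In n A := by
  refine ⟨Th n z, Th_mem hB, ?_⟩
  cases n with
  | zero => rw [bdry_Th_zero, sub_self]; exact zero_mem _
  | succ n => rw [bdry_Th, sub_sub_cancel]; exact Th_mem hz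

lemma Sd_pow_succ {n m : ℕ} (z : Ch n E) : (Sd n ^ (m + 1)) z = Sd n ((Sd n ^ m) z) := by
  rw [pow_succ']; rfl

lemma Sd_pow_mem {n : ℕ} {A : Set E} {z : Ch n E} (hz : z ∈ In n A) (m : ℕ) :
    (Sd n ^ m) z ∈ In n A := by
  induction m with
  | zero => simpa using hz
  | succ m ih => rw [Sd_pow_succ]; exact Sd_mem ih

lemma bdry_Sd_pow {n : ℕ} (m : ℕ) (z : Ch (n + 1) E) :
    bdry n ((Sd (n + 1) ^ m) z) = (Sd n ^ m) (bdry n z) := by
  induction m with
  | zero => simp
  | succ m ih => rw [Sd_pow_succ, Sd_pow_succ, bdry_Sd, ih]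

lemma Sd_pow_homologous {n : ℕ} {A B : Set E} {z : Ch n E} (hB : z ∈ In n B) (hz : Cyc n A z)
    (m : ℕ) : ∃ w ∈ In (n + 1) B, z - (Sd n ^ m) z - bdry n w ∈ In n A := by
  induction m generalizing z with
  | zero => exact ⟨0, zero_mem _, by simp⟩
  | succ m ih =>
    obtain ⟨w, hw, h⟩ := Sd_homologous hB hz
    obtain ⟨w', hw', h'⟩ := ih (Sd_mem hB) hz.Sd
    refine ⟨w + w', add_mem hw hw', ?_⟩
    convert add_mem h h' using 1
    rw [pow_succ, Module.End.mul_apply, map_add]
    abel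

/-! ### small simplices -/

def d1 {n : ℕ} (t t' : Sx n) : ℝ := ∑ i, |t i - t' i|

lemma d1_nonneg {n : ℕ} (t t' : Sx n) : 0 ≤ d1 t t' := Finset.sum_nonneg fun _ _ => abs_nonneg _

lemma d1_le_two {n : ℕ} (t t' : Sx n) : d1 t t' ≤ 2 := by
  have : d1 t t' ≤ ∑ i, (t i + t' i) := Finset.sum_le_sum fun i _ => by
    have := stdSimplex.zero_le t i
    have := stdSimplex.zero_le t' i
    rw [abs_le]; constructor <;> linarith
  simpa [Finset.sum_add_distrib, one_add_one_eq_two] using this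

lemma dist_le_d1 {n : ℕ} (t t' : Sx n) : dist t t' ≤ d1 t t' := by
  rw [Subtype.dist_eq, dist_pi_le_iff (d1_nonneg t t')]
  intro i
  rw [Real.dist_eq]
  exact Finset.single_le_sum (f := fun i => |t i - t' i|) (fun _ _ => abs_nonneg _)
    (Finset.mem_univ i)

lemma d1_aff {k N : ℕ} (w : Fin (k + 1) → Sx N) {i0 : Fin (N + 1)} {ε : ℝ}
    (h : ∀ j, ε ≤ w j i0) (t t' : Sx k) : d1 (aff w t) (aff w t') ≤ (1 - ε) * d1 t t' := by
  have h1 : ∀ i, aff w t i - aff w t' i =
      ∑ j, (t j - t' j) * (w j i - if i = i0 then ε else 0) := by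
    intro i
    simp only [aff_apply, mul_sub, sub_mul, Finset.sum_sub_distrib, ← Finset.sum_mul,
      stdSimplex.sum_eq_one]
    ring
  have h2 : ∀ j i, 0 ≤ w j i - if i = i0 then ε else 0 := by
    intro j i
    split_ifs with hi
    · rw [hi]; linarith [h j]
    · simp
  calc d1 (aff w t) (aff w t')
      ≤ ∑ i, ∑ j, |t j - t' j| * (w j i - if i = i0 then ε else 0) := by
        refine Finset.sum_le_sum fun i _ => ?_
        rw [h1]
        refine (Finset.abs_sum_le_sum_abs _ _).trans (le_of_eq ?_)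
        refine Finset.sum_congr rfl fun j _ => ?_
        rw [abs_mul, abs_of_nonneg (h2 j i)]
    _ = (1 - ε) * d1 t t' := by
        rw [Finset.sum_comm, d1, Finset.mul_sum]
        refine Finset.sum_congr rfl fun j _ => ?_
        rw [← Finset.mul_sum, Finset.sum_sub_distrib]
        simp [mul_comm]

lemma sdc_mem : ∀ n : ℕ,
    sdc n ∈ supported ℤ ℤ {w : Fin (n + 1) → Sx n | ∃ i, ∀ j, 1 / ((n : ℝ) + 1) ≤ w j i}
  | 0 => by rw [sdc_zero]; exact single_mem_supported ℤ 1 ⟨0, fun j => by simp⟩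
  | n + 1 => by
    rw [sdc_succ]
    refine lin_mem (cone stdSimplex.barycenter ∘ₗ tfaces (n + 1) n) (fun w hw => ?_) (sdc_mem n)
    obtain ⟨i, hi⟩ := hw
    simp only [LinearMap.comp_apply, tfaces_apply, map_sum, map_smul, tpush_single, cone_single]
    refine Submodule.sum_mem _ fun l _ => Submodule.smul_mem _ _ (single_mem_supported ℤ 1 ?_)
    refine ⟨l.succAbove i, fun j => ?_⟩
    refine Fin.cases ?_ (fun j => ?_) j
    · simp only [Fin.cons_zero]
      refine le_of_eq ?_
      show _ = (Fintype.card (Fin (n + 1 + 1)) : ℝ)⁻¹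
      simp
    · simp only [Fin.cons_succ, Function.comp_apply]
      rw [face_apply_succAbove]
      refine le_trans ?_ (hi j)
      gcongr
      simp

lemma Sd_pow_single {n : ℕ} (σ : C(Sx n, E)) (m : ℕ) :
    (Sd n ^ m) (single σ 1) ∈ supported ℤ ℤ {τ : C(Sx n, E) | ∃ φ : C(Sx n, Sx n), τ = σ.comp φ ∧
      ∀ t t', d1 (φ t) (φ t') ≤ (1 - 1 / ((n : ℝ) + 1)) ^ m * d1 t t'} := by
  induction m with
  | zero => exact single_mem_supported ℤ 1 ⟨ContinuousMap.id _, rfl, by simp⟩
  | succ m ih =>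
    rw [Sd_pow_succ]
    refine lin_mem _ ?_ ih
    rintro _ ⟨φ, rfl, hφ⟩
    rw [Sd_single]
    refine lin_mem _ ?_ (sdc_mem n)
    rintro w ⟨i, hi⟩
    rw [real_single]
    refine single_mem_supported ℤ 1 ⟨φ.comp (aff w), rfl, fun t t' => ?_⟩
    refine (hφ _ _).trans ?_
    rw [pow_succ, mul_assoc]
    refine mul_le_mul_of_nonneg_left (d1_aff w hi t t') (pow_nonneg ?_ _)
    rw [sub_nonneg, div_le_one (by positivity)]
    simp

lemma eventually_small {n : ℕ} {U V : Set E} (hU : IsOpen U) (hV : IsOpen V) {z : Ch n E}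
    (hz : z ∈ In n (U ∪ V)) : ∀ᶠ m in Filter.atTop, (Sd n ^ m) z ∈ In n U ⊔ In n V := by
  rw [In, supported_eq_span_single] at hz
  induction hz using Submodule.span_induction with
  | zero => simp
  | add x y _ _ hx hy =>
    filter_upwards [hx, hy] with m h1 h2
    rw [map_add]; exact add_mem h1 h2
  | smul a x _ hx =>
    filter_upwards [hx] with m h1
    rw [map_smul]; exact Submodule.smul_mem _ _ h1
  | mem x hx =>
    obtain ⟨σ, hσ, rfl⟩ := hx
    obtain ⟨δ, hδ, hL⟩ := lebesgue_number_lemma_of_metric (s := (univ : Set (Sx n)))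
      (c := fun b : Bool => σ ⁻¹' (if b then U else V)) isCompact_univ
      (fun b => by cases b <;> simp [hU.preimage σ.continuous, hV.preimage σ.continuous])
      (fun t _ => by
        rcases hσ t with h | h
        · exact mem_iUnion.2 ⟨true, h⟩
        · exact mem_iUnion.2 ⟨false, h⟩)
    have hκ : Filter.Tendsto (fun m : ℕ => (1 - 1 / ((n : ℝ) + 1)) ^ m * 2) Filter.atTop
        (𝓝 (0 * 2)) := by
      refine (tendsto_pow_atTop_nhds_zero_of_lt_one ?_ ?_).mul_const 2
      · rw [sub_nonneg, div_le_one (by positivity)]; simp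
      · have : 0 < 1 / ((n : ℝ) + 1) := by positivity
        linarith
    filter_upwards [hκ.eventually (gt_mem_nhds (show (0 : ℝ) * 2 < δ by simpa using hδ))] with m hm
    have := lin_mem (LinearMap.id) (P := In n U ⊔ In n V) ?_ (Sd_pow_single σ m)
    · exact this
    rintro _ ⟨φ, rfl, hφ⟩
    obtain ⟨b, hb⟩ := hL (φ (vtx 0)) trivial
    have hall : ∀ t, σ (φ t) ∈ (if b then U else V) := fun t => hb (by
      rw [Metric.mem_ball]
      refine (dist_le_d1 _ _).trans_lt ((hφ _ _).trans_lt (lt_of_le_of_lt ?_ hm))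
      refine mul_le_mul_of_nonneg_left (d1_le_two _ _) (pow_nonneg ?_ _)
      rw [sub_nonneg, div_le_one (by positivity)]; simp)
    cases b
    · exact Submodule.mem_sup_right (single_mem_In hall)
    · exact Submodule.mem_sup_left (single_mem_In hall)

/-- Mayer-Vietoris for acyclic pairs -/
theorem Acyc.inter {U V U' V' : Set E} (hU : IsOpen U) (hV : IsOpen V) (hU' : IsOpen U')
    (hV' : IsOpen V') (hUU : U ⊆ U') (hVV : V ⊆ V') (h1 : Acyc U' U) (h2 : Acyc V' V)
    (h3 : Acyc (U' ∪ V') (U ∪ V)) : Acyc (U' ∩ V') (U ∩ V) := by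
  intro n z hz hc
  obtain ⟨y1, hy1, hu1⟩ := h1 n z (In_mono inter_subset_left hz) (hc.mono inter_subset_left)
  obtain ⟨y2, hy2, hu2⟩ := h2 n z (In_mono inter_subset_right hz) (hc.mono inter_subset_right)
  obtain ⟨q, hq, hx⟩ := h3 (n + 1) (y1 - y2)
    (sub_mem (In_mono subset_union_left hy1) (In_mono subset_union_right hy2)) (by
      show _ ∈ _
      convert sub_mem (In_mono subset_union_right hu2) (In_mono subset_union_left hu1) using 1
      rw [map_sub]; abel)
  obtain ⟨m, hm1, hm2⟩ := ((eventually_small hU' hV' hq).and (eventually_small hU hV hx)).exists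
  obtain ⟨q1, hq1, q2, hq2, hq'⟩ := Submodule.mem_sup.1 hm1
  obtain ⟨x1, hx1, x2, hx2, hx'⟩ := Submodule.mem_sup.1 hm2
  obtain ⟨w, hw, hw'⟩ := Sd_pow_homologous hz hc m
  have key : (Sd (n + 1) ^ m) y1 - bdry (n + 1) q1 - x1 =
      (Sd (n + 1) ^ m) y2 + bdry (n + 1) q2 + x2 := by
    rw [map_sub, map_sub, ← bdry_Sd_pow, ← hq', map_add] at hx'
    rw [← sub_eq_zero, ← sub_eq_zero.2 hx'.symm]
    abel
  refine ⟨(Sd (n + 1) ^ m) y1 - bdry (n + 1) q1 - x1 + w, add_mem (mem_In_inter ?_ ?_) hw, ?_⟩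
  · exact sub_mem (sub_mem (Sd_pow_mem hy1 m) (bdry_mem hq1)) (In_mono hUU hx1)
  · rw [key]
    exact add_mem (add_mem (Sd_pow_mem hy2 m) (bdry_mem hq2)) (In_mono hVV hx2)
  · have e1 : (Sd n ^ m) z - bdry n ((Sd (n + 1) ^ m) y1 - bdry (n + 1) q1 - x1) ∈ In n U := by
      convert add_mem (Sd_pow_mem hu1 m) (bdry_mem hx1) using 1
      simp only [map_sub, bdry_Sd_pow, bdry_bdry]
      abel
    have e2 : (Sd n ^ m) z - bdry n ((Sd (n + 1) ^ m) y1 - bdry (n + 1) q1 - x1) ∈ In n V := by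
      rw [key]
      convert sub_mem (Sd_pow_mem hu2 m) (bdry_mem hx2) using 1
      simp only [map_sub, map_add, bdry_Sd_pow, bdry_bdry]
      abel
    convert add_mem (mem_In_inter e1 e2) hw' using 1
    rw [map_add]
    abel

end Pool.Agent.H80

end
end MrgPart1

-- marker of a merged file
example : 731051 + 62411 = 731051 + 62411 := rfl
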